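import Pool.Agent.Y738.PE.Stm2

/-! # Summation over the labels of a tensor (project PE2, part G1; by helper153)

Adapted from `Pool.Agent.Y978.PE.Collapse`. -/

set_option autoImplicit false

open scoped BigOperators ComplexConjugate Classical

noncomputable section

namespace Pool.Agent.Y153.PE2.Labels

open Pool.Agent.Y738.PE Finset

lemma const_zmod {L : ℕ} [NeZero L] {A : Type*} (f : ZMod L → A) (h : ∀ b, f (b - 1) = f b)
    (b : ZMod L) : f b = f 0 := by
  have h1 : ∀ n : ℕ, f (n : ZMod L) = f 0 := by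
    intro n
    induction n with
    | zero => simp
    | succ n ih =>
      rw [← h]
      push_cast
      rw [add_sub_cancel_right]
      exact ih
  have h2 := h1 b.val
  rwa [ZMod.natCast_zmod_val] at h2

variable {d N L : ℕ} [NeZero L] {Y : Type}

/-- the conditions at all sites -/
def CB (x : Site L → Lab N × Lab N × Y) : Prop :=
  ∀ v : Site L, okL (x v).1 ∧ okL (x v).2.1 ∧ step (x (v.1 - 1, v.2)).1 (x v).1 ∧
    (x (v.1 - 1, v.2)).2.1 = (x v).2.1 ∧ step (x (v.1, v.2 - 1)).2.1 (x v).2.1 ∧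
    (x (v.1, v.2 - 1)).1 = (x v).1

lemma peps_eq [Fintype Y] (w : Lab N → Lab N → Fin d → Y → Y → Y → ℂ) (s : Conf d L) :
    pepsX (tensG w) L s =
      ∑ x ∈ (Finset.univ : Finset (Site L → Lab N × Lab N × Y)).filter CB,
        ∏ v : Site L, w (x v).1 (x v).2.1 (s v) (x (v.1 - 1, v.2)).2.2 (x v).2.2
          (x (v.1, v.2 - 1)).2.2 := by
  unfold pepsX
  rw [Finset.sum_filter]
  refine Finset.sum_congr rfl fun x _ => ?_
  rw [Finset.sum_eq_single x]
  · by_cases h : CB x
    · rw [if_pos h]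
      refine prod_congr rfl fun v _ => ?_
      unfold tensG
      rw [if_pos ⟨rfl, h v⟩]
    · rw [if_neg h]
      unfold CB at h
      obtain ⟨v, hv⟩ := not_forall.1 h
      refine prod_eq_zero (mem_univ v) ?_
      unfold tensG
      rw [if_neg (fun h => hv h.2)]
  · intro y _ hy
    obtain ⟨v, hv⟩ := Function.ne_iff.1 hy
    refine prod_eq_zero (mem_univ v) ?_
    unfold tensG
    rw [if_neg (fun h => hv h.1)]
  · intro h
    exact absurd (mem_univ _) h

/-- the tiling of a state -/
def th (x : Site L → Lab N × Lab N × Y) : Til N L :=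
  (fun a => (x (a, 0)).1, fun b => (x (0, b)).2.1)

lemma th1 {x : Site L → Lab N × Lab N × Y} (h : CB x) (v : Site L) :
    (x v).1 = (th x).1 v.1 :=
  const_zmod (fun b => (x (v.1, b)).1) (fun b => (h (v.1, b)).2.2.2.2.2) v.2

lemma th2 {x : Site L → Lab N × Lab N × Y} (h : CB x) (v : Site L) :
    (x v).2.1 = (th x).2 v.2 :=
  const_zmod (fun a => (x (a, v.2)).2.1) (fun a => (h (a, v.2)).2.2.2.1) v.1

omit [NeZero L] in
lemma th_valid {x : Site L → Lab N × Lab N × Y} (h : CB x) : Valid (th x) := by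
  refine ⟨fun a => ?_, fun b => ?_⟩
  · have h1 := h (a, 0)
    exact ⟨h1.1, h1.2.2.1⟩
  · have h1 := h (0, b)
    exact ⟨h1.2.1, h1.2.2.2.2.1⟩

/-- the state of a tiling and a labelling -/
def st (z : Til N L × (Site L → Y)) : Site L → Lab N × Lab N × Y :=
  fun v => (z.1.1 v.1, z.1.2 v.2, z.2 v)

omit [NeZero L] in
lemma st_CB (z : Til N L × (Site L → Y)) (h : Valid z.1) : CB (st z) := by
  intro v
  obtain ⟨ha, hb⟩ := h
  exact ⟨(ha v.1).1, (hb v.2).1, (ha v.1).2, rfl, (hb v.2).2, rfl⟩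

/-- **Summation over the labels.** -/
theorem labels : StmLabels := by
  intro d N L _ Y _ w s
  rw [peps_eq, ← Finset.sum_product']
  symm
  refine Finset.sum_nbij' st (fun x => (th x, fun v => (x v).2.2)) ?_ ?_ ?_ ?_ ?_
  · intro z hz
    rw [mem_product, mem_filter] at hz
    rw [mem_filter]
    exact ⟨mem_univ _, st_CB z hz.1.2⟩
  · intro x hx
    rw [mem_filter] at hx
    rw [mem_product, mem_filter]
    exact ⟨⟨mem_univ _, th_valid hx.2⟩, mem_univ _⟩
  · intro z _
    rfl
  · intro x hx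
    rw [mem_filter] at hx
    funext v
    exact Prod.ext (th1 hx.2 v).symm (Prod.ext (th2 hx.2 v).symm rfl)
  · intro z _
    rfl

end Pool.Agent.Y153.PE2.Labels
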